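import Pool.Agent.W809.JS.Stm

set_option autoImplicit false

open MeasureTheory Filter Topology Set Metric Real
open Pool.Agent.Results.MP_5c297c_an.NotJessen

namespace Pool.Agent.W585.JS

open Pool.Agent.W809.JS

variable {n : ℕ}

/-- the point of the slice with the real part clamped to the segment -/
noncomputable def gk (s : ℝ) (c : ℂ) (y : ℝ) (t : ℝ) : ℂ :=
  ((max (c.re - s) (min t (c.re + s)) : ℝ) : ℂ) + (y : ℂ) * Complex.I

lemma measurable_gk (s : ℝ) (c : ℂ) (y : ℝ) : Measurable (gk s c y) := by
  unfold gk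
  fun_prop

lemma gk_eq {s : ℝ} {c : ℂ} {y t : ℝ} (ht : t ∈ Icc (c.re - s) (c.re + s)) :
    gk s c y t = (t : ℂ) + (y : ℂ) * Complex.I := by
  unfold gk
  rw [min_eq_left ht.2, max_eq_right ht.1]

lemma gk_mem {s : ℝ} (hs : 0 < s) {c : ℂ} {y : ℝ} (hy : |y - c.im| ≤ s) (t : ℝ) :
    gk s c y t ∈ closedBall c (8 * s) := by
  rw [mem_closedBall, dist_eq_norm]
  have h1 : |(gk s c y t - c).re| ≤ s := by
    unfold gk
    simp only [Complex.sub_re, Complex.add_re, Complex.ofReal_re, Complex.mul_re, Complex.I_re,
      mul_zero, Complex.ofReal_im, Complex.I_im, mul_one, sub_self, add_zero]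
    rw [abs_le]
    constructor
    · have := le_max_left (c.re - s) (min t (c.re + s))
      linarith
    · have h2 : max (c.re - s) (min t (c.re + s)) ≤ c.re + s :=
        max_le (by linarith) (min_le_right _ _)
      linarith
  have h2 : |(gk s c y t - c).im| ≤ s := by
    unfold gk
    simp only [Complex.sub_im, Complex.add_im, Complex.ofReal_im, Complex.mul_im, Complex.I_re,
      mul_zero, Complex.ofReal_re, Complex.I_im, mul_one, zero_add, add_zero]
    exact hy
  have h3 := Complex.norm_le_abs_re_add_abs_im (gk s c y t - c)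
  linarith

/-- the partially moved point -/
noncomputable def wS (s : ℝ) (z : Fin n → ℂ) (y : Fin n → ℝ) (S : Finset (Fin n))
    (x : Fin n → ℝ) : Fin n → ℂ := fun k => if k ∈ S then gk s (z k) (y k) (x k) else z k

lemma measurable_wS (s : ℝ) (z : Fin n → ℂ) (y : Fin n → ℝ) (S : Finset (Fin n)) :
    Measurable (wS s z y S) := by
  rw [measurable_pi_iff]
  intro k
  unfold wS
  by_cases hk : k ∈ S
  · simp only [hk, if_true]
    exact (measurable_gk _ _ _).comp (measurable_pi_apply k)
  · simp only [hk, if_false]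
    exact measurable_const

/-- the measure on the `k`-th coordinate -/
noncomputable def mk (s : ℝ) (z : Fin n → ℂ) (k : Fin n) : Measure ℝ :=
  volume.restrict (Icc ((z k).re - s) ((z k).re + s))

instance (s : ℝ) (z : Fin n → ℂ) (k : Fin n) : SigmaFinite (mk s z k) := by
  unfold mk
  infer_instance

lemma wS_insert {s : ℝ} {z : Fin n → ℂ} {y : Fin n → ℝ} {S : Finset (Fin n)} {k : Fin n}
    (hk : k ∉ S) (x : Fin n → ℝ) (t : ℝ) :
    wS s z y (insert k S) (Function.update x k t) =
      Function.update (wS s z y S x) k (gk s (z k) (y k) t) := by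
  funext j
  by_cases hj : j = k
  · subst hj
    simp [wS]
  · simp [wS, hj]

lemma wS_self {s : ℝ} {z : Fin n → ℂ} {y : Fin n → ℝ} {S : Finset (Fin n)} {k : Fin n}
    (hk : k ∉ S) (x : Fin n → ℝ) :
    Function.update (wS s z y S x) k (z k) = wS s z y S x := by
  funext j
  by_cases hj : j = k
  · subst hj
    simp [wS, hk]
  · simp [hj]

lemma update_mem {s : ℝ} (hs : 0 < s) {z : Fin n → ℂ} {y : Fin n → ℝ}
    (hy : ∀ k, |y k - (z k).im| ≤ s) (S : Finset (Fin n)) (k : Fin n) (x : Fin n → ℝ) {ζ : ℂ}
    (hζ : ζ ∈ closedBall (z k) (8 * s)) :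
    Function.update (wS s z y S x) k ζ ∈ closedBall z (8 * s) := by
  rw [closedBall_pi _ (by positivity), Set.mem_univ_pi]
  intro j
  by_cases hj : j = k
  · subst hj
    simpa using hζ
  · rw [Function.update_of_ne hj]
    unfold wS
    split_ifs with h
    · exact gk_mem hs (hy j) _
    · exact mem_closedBall_self (by positivity)

lemma step {C : ℝ} (hL : ∀ (s M : ℝ) (c : ℂ) (G : ℂ → ℂ), 0 < s → 0 ≤ M → Good s M c G →
    ∀ y : ℝ, |y - c.im| ≤ s →
    ∫⁻ x in Icc (c.re - s) (c.re + s), (dfc M (G ((x : ℂ) + (y : ℂ) * Complex.I))) ^ 2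
      ≤ ENNReal.ofReal (C * s) * (dfc M (G c)) ^ 2)
    {s M : ℝ} {z : Fin n → ℂ} {y : Fin n → ℝ} {f : (Fin n → ℂ) → ℂ} {U : Set (Fin n → ℂ)}
    (hs : 0 < s) (hM : 0 ≤ M) (hf : Measurable f) (hU : IsOpen U) (hd : DifferentiableOn ℂ f U)
    (hz : closedBall z (8 * s) ⊆ U) (hb : ∀ w ∈ U, ‖f w‖ ≤ Real.exp M)
    (hy : ∀ k, |y k - (z k).im| ≤ s) {S : Finset (Fin n)} {k : Fin n} (hk : k ∉ S)
    (x : Fin n → ℝ) :
    ∫⁻ t, (dfc M (f (wS s z y (insert k S) (Function.update x k t)))) ^ 2 ∂(mk s z k) ≤
      ENNReal.ofReal (C * s) * (dfc M (f (wS s z y S x))) ^ 2 := by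
  have hcont : Continuous (fun ζ : ℂ => Function.update (wS s z y S x) k ζ) :=
    continuous_const.update k continuous_id
  have hG : Good s M (z k) (fun ζ => f (Function.update (wS s z y S x) k ζ)) := by
    refine ⟨hf.comp hcont.measurable, ?_, ?_⟩
    · have hV : IsOpen ((fun ζ : ℂ => Function.update (wS s z y S x) k ζ) ⁻¹' U) :=
        hU.preimage hcont
      have h1 : DifferentiableOn ℂ (fun ζ => f (Function.update (wS s z y S x) k ζ))
          ((fun ζ : ℂ => Function.update (wS s z y S x) k ζ) ⁻¹' U) := by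
        intro ζ hζ
        have e1 : DifferentiableAt ℂ f (Function.update (wS s z y S x) k ζ) :=
          (hd _ hζ).differentiableAt (hU.mem_nhds hζ)
        have e2 : DifferentiableAt ℂ (fun ζ : ℂ => Function.update (wS s z y S x) k ζ) ζ :=
          (hasDerivAt_update _ _ _).differentiableAt
        exact (DifferentiableAt.comp ζ e1 e2).differentiableWithinAt
      refine (h1.analyticOnNhd hV).mono ?_
      intro ζ hζ
      exact hz (update_mem hs hy S k x hζ)
    · intro ζ hζ
      exact hb _ (hz (update_mem hs hy S k x hζ))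
  have h2 := hL s M (z k) _ hs hM hG (y k) (hy k)
  simp only [wS_self hk] at h2
  refine le_trans (le_of_eq ?_) h2
  unfold mk
  refine setLIntegral_congr_fun measurableSet_Icc ?_
  intro t ht
  simp only
  rw [wS_insert hk, gk_eq ht]

lemma main {C : ℝ} (hL : ∀ (s M : ℝ) (c : ℂ) (G : ℂ → ℂ), 0 < s → 0 ≤ M → Good s M c G →
    ∀ y : ℝ, |y - c.im| ≤ s →
    ∫⁻ x in Icc (c.re - s) (c.re + s), (dfc M (G ((x : ℂ) + (y : ℂ) * Complex.I))) ^ 2
      ≤ ENNReal.ofReal (C * s) * (dfc M (G c)) ^ 2)
    {s M : ℝ} {z : Fin n → ℂ} {y : Fin n → ℝ} {f : (Fin n → ℂ) → ℂ} {U : Set (Fin n → ℂ)}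
    (hs : 0 < s) (hM : 0 ≤ M) (hf : Measurable f) (hU : IsOpen U) (hd : DifferentiableOn ℂ f U)
    (hz : closedBall z (8 * s) ⊆ U) (hb : ∀ w ∈ U, ‖f w‖ ≤ Real.exp M)
    (hy : ∀ k, |y k - (z k).im| ≤ s) (S : Finset (Fin n)) (x : Fin n → ℝ) :
    lmarginal (mk s z) S (fun x => (dfc M (f (wS s z y S x))) ^ 2) x ≤
      ENNReal.ofReal (C * s) ^ S.card * (dfc M (f z)) ^ 2 := by
  have hmeas : ∀ S : Finset (Fin n), Measurable (fun x => (dfc M (f (wS s z y S x))) ^ 2) :=
    fun S => ((measurable_dfc M).comp (hf.comp (measurable_wS s z y S))).pow_const 2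
  induction S using Finset.induction_on generalizing x with
  | empty =>
    rw [lmarginal_empty]
    have : wS s z y ∅ x = z := by
      funext k
      simp [wS]
    simp [this]
  | insert k S hk ih =>
    rw [lmarginal_insert' _ (hmeas _) hk]
    calc lmarginal (mk s z) S (fun x => ∫⁻ t, (dfc M (f (wS s z y (insert k S)
            (Function.update x k t)))) ^ 2 ∂(mk s z k)) x
        ≤ lmarginal (mk s z) S (fun x => ENNReal.ofReal (C * s) *
            (dfc M (f (wS s z y S x))) ^ 2) x := by
          refine lmarginal_mono ?_ x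
          intro x'
          exact step hL hs hM hf hU hd hz hb hy hk x'
      _ = ENNReal.ofReal (C * s) * lmarginal (mk s z) S
            (fun x => (dfc M (f (wS s z y S x))) ^ 2) x := by
          unfold lmarginal
          rw [lintegral_const_mul]
          exact (hmeas S).comp measurable_updateFinset
      _ ≤ ENNReal.ofReal (C * s) * (ENNReal.ofReal (C * s) ^ S.card * (dfc M (f z)) ^ 2) :=
          mul_le_mul_right (ih x) _
      _ = _ := by
          rw [Finset.card_insert_of_notMem hk, pow_succ]
          ring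

theorem iter : S_L2 → S_ITER := by
  rintro ⟨C, hC, hL⟩
  refine ⟨C, by linarith, ?_⟩
  intro n s M z y f U hs hs1 hM hf hU hd hz hb hy
  have hCs : C * s ≤ C := by nlinarith
  have hCs0 : 0 ≤ C * s := by nlinarith
  have hbox : closedBall (rePart z) s =
      Set.univ.pi (fun k : Fin n => Icc ((z k).re - s) ((z k).re + s)) := by
    rw [closedBall_pi _ hs.le]
    refine Set.pi_congr rfl fun k _ => ?_
    rw [Real.closedBall_eq_Icc]
    rfl
  have hmu : (volume : Measure (Fin n → ℝ)).restrict (closedBall (rePart z) s) =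
      Measure.pi (mk s z) := by
    rw [hbox, volume_pi, Measure.restrict_pi_pi]
    rfl
  have hconst : ENNReal.ofReal (C * s) ^ n * (dfc M (f z)) ^ 2 ≤
      ENNReal.ofReal (C ^ n) * (dfc M (f z)) ^ 2 := by
    refine mul_le_mul_left ?_ _
    rw [← ENNReal.ofReal_pow hCs0]
    refine ENNReal.ofReal_le_ofReal ?_
    exact pow_le_pow_left₀ hCs0 hCs n
  have hmb : MeasurableSet (closedBall (rePart z) s) := measurableSet_closedBall
  constructor
  · have e1 : ∫⁻ x in closedBall (rePart z) s, (dfc M (f (cpt x y))) ^ 2 =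
        ∫⁻ x in closedBall (rePart z) s, (dfc M (f (wS s z y Finset.univ x))) ^ 2 := by
      refine setLIntegral_congr_fun hmb ?_
      intro x hx
      rw [hbox, Set.mem_univ_pi] at hx
      have : wS s z y Finset.univ x = cpt x y := by
        funext k
        simp only [wS, Finset.mem_univ, if_true, cpt]
        exact gk_eq (hx k)
      simp only [this]
    rw [e1, hmu, lintegral_eq_lmarginal_univ (rePart z)]
    refine (main hL hs hM hf hU hd hz hb hy Finset.univ (rePart z)).trans ?_
    rw [Finset.card_univ, Fintype.card_fin]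
    exact hconst
  · intro i
    have e1 : ∫⁻ x in closedBall (rePart z) s,
        (dfc M (f (Function.update (cpt x y) i (z i)))) ^ 2 =
        ∫⁻ x in closedBall (rePart z) s,
          (dfc M (f (wS s z y (Finset.univ.erase i) x))) ^ 2 := by
      refine setLIntegral_congr_fun hmb ?_
      intro x hx
      rw [hbox, Set.mem_univ_pi] at hx
      have : wS s z y (Finset.univ.erase i) x = Function.update (cpt x y) i (z i) := by
        funext k
        by_cases hk : k = i
        · subst hk
          simp [wS]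
        · simp only [wS, Finset.mem_erase, Finset.mem_univ, and_true, hk, ne_eq,
            not_false_eq_true, if_true, Function.update_of_ne hk, cpt]
          exact gk_eq (hx k)
      simp only [this]
    have hmeas : Measurable (fun x => (dfc M (f (wS s z y (Finset.univ.erase i) x))) ^ 2) :=
      ((measurable_dfc M).comp (hf.comp (measurable_wS s z y _))).pow_const 2
    rw [e1, hmu, lintegral_eq_lmarginal_univ (rePart z),
      lmarginal_erase' _ hmeas (Finset.mem_univ i)]
    have hind : ∀ (x : Fin n → ℝ) (t : ℝ), wS s z y (Finset.univ.erase i)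
        (Function.update x i t) = wS s z y (Finset.univ.erase i) x := by
      intro x t
      funext k
      by_cases hk : k = i
      · subst hk
        simp [wS]
      · simp [wS, hk]
    simp only [hind, lintegral_const]
    have hmuu : (mk s z i) Set.univ = ENNReal.ofReal (2 * s) := by
      unfold mk
      rw [Measure.restrict_apply_univ, Real.volume_Icc]
      congr 1
      ring
    rw [hmuu]
    have e2 : lmarginal (mk s z) (Finset.univ.erase i) (fun x =>
        (dfc M (f (wS s z y (Finset.univ.erase i) x))) ^ 2 * ENNReal.ofReal (2 * s)) (rePart z) =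
        lmarginal (mk s z) (Finset.univ.erase i) (fun x =>
        (dfc M (f (wS s z y (Finset.univ.erase i) x))) ^ 2) (rePart z) *
          ENNReal.ofReal (2 * s) := by
      unfold lmarginal
      rw [lintegral_mul_const]
      exact hmeas.comp measurable_updateFinset
    rw [e2]
    calc _ ≤ (ENNReal.ofReal (C * s) ^ (Finset.univ.erase i).card * (dfc M (f z)) ^ 2) *
          ENNReal.ofReal (C * s) := by
          refine mul_le_mul' (main hL hs hM hf hU hd hz hb hy _ _) ?_
          exact ENNReal.ofReal_le_ofReal (by nlinarith)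
      _ = ENNReal.ofReal (C * s) ^ n * (dfc M (f z)) ^ 2 := by
          have hcard : (Finset.univ.erase i).card + 1 = n := by
            rw [Finset.card_erase_of_mem (Finset.mem_univ i), Finset.card_univ, Fintype.card_fin]
            have : 0 < n := Fin.pos i
            omega
          conv_rhs => rw [← hcard, pow_succ]
          ring
      _ ≤ _ := hconst

end Pool.Agent.W585.JS

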